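import Mathlib
import Pool.Agent.Q254.AGP.Stm

/-!
Jobs TRIV and PH of project AGP (helper254).
-/

set_option autoImplicit false

open Finset
open scoped Classical

namespace Q186.AGP

open Pool.Agent.Q254.AGP

theorem hsum (X : ℕ) : ∑ k ∈ Icc 1 X, (1 : ℝ) / k ≤ 1 + Real.log X := by
  have h := harmonic_le_one_add_log X
  rw [harmonic_eq_sum_Icc] at h
  push_cast at h
  simpa only [one_div] using h

/-- the prime `p` with `p = 1 mod d` is `d k + 1` -/
theorem pk {z X d p : ℕ} (hz : 1 ≤ z) (hp : p ∈ Ioc z X) (hm : p ≡ 1 [MOD d]) :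
    d * ((p - 1) / d) + 1 = p ∧ 1 ≤ (p - 1) / d ∧ (p - 1) / d ≤ X := by
  rw [mem_Ioc] at hp
  have h1 : d ∣ p - 1 := (Nat.modEq_iff_dvd' (by omega)).1 hm.symm
  have h2 : d * ((p - 1) / d) = p - 1 := Nat.mul_div_cancel' h1
  refine ⟨by omega, ?_, ?_⟩
  · rcases Nat.eq_zero_or_pos ((p - 1) / d) with h | h
    · rw [h] at h2; simp at h2; omega
    · exact h
  · exact le_trans (Nat.div_le_self _ _) (by omega)

theorem sum_le (z X d : ℕ) (R : ℕ → Prop) (hz : 1 ≤ z) (hd : 0 < d) :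
    ∑ p ∈ (Ioc z X).filter (fun p => p.Prime ∧ p ≡ 1 [MOD d] ∧ R p), (1 : ℝ) / p ≤
      (1 / (d : ℝ)) * ∑ k ∈ (Icc 1 X).filter (fun k => (d * k + 1).Prime ∧ z < d * k + 1 ∧
        d * k + 1 ≤ X ∧ R (d * k + 1)), (1 : ℝ) / k := by
  have hd' : (0 : ℝ) < d := by exact_mod_cast hd
  set F := (Ioc z X).filter (fun p => p.Prime ∧ p ≡ 1 [MOD d] ∧ R p) with hF
  have hinj : Set.InjOn (fun p : ℕ => (p - 1) / d) (F : Set ℕ) := by
    intro p hp q hq h
    simp only [hF, coe_filter, Set.mem_ofPred_eq] at hp hq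
    have h1 := (pk hz hp.1 hp.2.2.1).1
    have h2 := (pk hz hq.1 hq.2.2.1).1
    simp only at h
    rw [h] at h1
    omega
  calc ∑ p ∈ F, (1 : ℝ) / p
      ≤ ∑ p ∈ F, (1 / (d : ℝ)) * (1 / (((p - 1) / d : ℕ) : ℝ)) := by
        apply sum_le_sum
        intro p hp
        simp only [hF, mem_filter] at hp
        obtain ⟨h1, h2, -⟩ := pk hz hp.1 hp.2.2.1
        set k := (p - 1) / d
        have hk : (0 : ℝ) < k := by exact_mod_cast h2
        rw [← h1]
        push_cast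
        rw [one_div_mul_one_div]
        apply one_div_le_one_div_of_le (by positivity)
        linarith
    _ = ∑ k ∈ F.image (fun p : ℕ => (p - 1) / d), (1 / (d : ℝ)) * (1 / (k : ℝ)) := by
        rw [sum_image hinj]
    _ ≤ ∑ k ∈ (Icc 1 X).filter (fun k => (d * k + 1).Prime ∧ z < d * k + 1 ∧
        d * k + 1 ≤ X ∧ R (d * k + 1)), (1 / (d : ℝ)) * (1 / (k : ℝ)) := by
        apply sum_le_sum_of_subset_of_nonneg
        · intro k hk
          rw [mem_image] at hk
          obtain ⟨p, hp, rfl⟩ := hk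
          simp only [hF, mem_filter] at hp
          obtain ⟨h1, h2, h3⟩ := pk hz hp.1 hp.2.2.1
          rw [mem_filter, mem_Icc, h1]
          have h4 := mem_Ioc.1 hp.1
          exact ⟨⟨h2, h3⟩, hp.2.1, h4.1, h4.2, hp.2.2.2⟩
        · intro k _ _
          positivity
    _ = (1 / (d : ℝ)) * ∑ k ∈ (Icc 1 X).filter (fun k => (d * k + 1).Prime ∧ z < d * k + 1 ∧
        d * k + 1 ≤ X ∧ R (d * k + 1)), (1 : ℝ) / k := by
        rw [mul_sum]

theorem triv : S_TRIV := by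
  intro z X D hz hD
  have hD' : (0 : ℝ) < D := by exact_mod_cast hD
  have h := sum_le z X D (fun _ => True) hz hD
  refine le_trans (le_of_eq ?_) (h.trans ?_)
  · apply sum_congr _ (fun _ _ => rfl)
    ext p
    simp only [mem_filter, and_true]
  rw [show (1 + Real.log X) / (D : ℝ) = (1 / (D : ℝ)) * (1 + Real.log X) by ring]
  apply mul_le_mul_of_nonneg_left _ (by positivity)
  refine le_trans ?_ (hsum X)
  apply sum_le_sum_of_subset_of_nonneg
  · intro k hk
    simp only [mem_filter] at hk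
    exact hk.1
  · intro k _ _
    positivity

theorem ph : S_PH := by
  intro z X D c R hz hc hD hpos h
  by_contra hcon
  push Not at hcon
  set N : ℕ → ℝ := fun k => ((D.filter (fun d => (d * k + 1).Prime ∧ z < d * k + 1 ∧
      d * k + 1 ≤ X ∧ R d (d * k + 1))).card : ℝ) with hN
  have hX : 0 ≤ Real.log X := Real.log_natCast_nonneg X
  -- the double count
  have h1 : c * (D.card : ℝ) ≤ ∑ k ∈ Icc 1 X, (1 / (k : ℝ)) * N k := by
    have e1 : ∀ d ∈ D, c ≤ ∑ k ∈ Icc 1 X, if ((d * k + 1).Prime ∧ z < d * k + 1 ∧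
        d * k + 1 ≤ X ∧ R d (d * k + 1)) then (1 : ℝ) / k else 0 := by
      intro d hd
      have hd0 : (0 : ℝ) < d := by exact_mod_cast hpos d hd
      have := (h d hd).trans (sum_le z X d (R d) hz (hpos d hd))
      rw [div_eq_mul_inv, mul_comm, ← one_div] at this
      have := le_of_mul_le_mul_left this (by positivity)
      rwa [sum_filter] at this
    calc c * (D.card : ℝ) = ∑ d ∈ D, c := by rw [sum_const, nsmul_eq_mul, mul_comm]
      _ ≤ ∑ d ∈ D, ∑ k ∈ Icc 1 X, if ((d * k + 1).Prime ∧ z < d * k + 1 ∧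
        d * k + 1 ≤ X ∧ R d (d * k + 1)) then (1 : ℝ) / k else 0 := sum_le_sum e1
      _ = ∑ k ∈ Icc 1 X, ∑ d ∈ D, if ((d * k + 1).Prime ∧ z < d * k + 1 ∧
        d * k + 1 ≤ X ∧ R d (d * k + 1)) then (1 : ℝ) / k else 0 := sum_comm
      _ = ∑ k ∈ Icc 1 X, (1 / (k : ℝ)) * N k := by
        apply sum_congr rfl
        intro k _
        rw [← sum_filter, sum_const, nsmul_eq_mul, mul_comm]
  have hDc : (0 : ℝ) < D.card := by exact_mod_cast hD.card_pos
  rcases Nat.eq_zero_or_pos X with hX0 | hX0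
  · subst hX0
    simp at h1
    nlinarith
  have h2 : ∑ k ∈ Icc 1 X, (1 / (k : ℝ)) * ((1 + Real.log X) * N k) <
      ∑ k ∈ Icc 1 X, (1 / (k : ℝ)) * (c * (D.card : ℝ)) := by
    apply sum_lt_sum_of_nonempty ⟨1, by rw [mem_Icc]; omega⟩
    intro k hk
    rw [mem_Icc] at hk
    have hk0 : (0 : ℝ) < k := by exact_mod_cast hk.1
    exact mul_lt_mul_of_pos_left (hcon k hk.1 hk.2) (by positivity)
  rw [← sum_mul] at h2
  have h3 : ∑ k ∈ Icc 1 X, (1 / (k : ℝ)) * ((1 + Real.log X) * N k) =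
      (1 + Real.log X) * ∑ k ∈ Icc 1 X, (1 / (k : ℝ)) * N k := by
    rw [mul_sum]; apply sum_congr rfl; intro k _; ring
  rw [h3] at h2
  have h4 : (∑ k ∈ Icc 1 X, (1 : ℝ) / k) * (c * D.card) ≤ (1 + Real.log X) * (c * D.card) :=
    mul_le_mul_of_nonneg_right (hsum X) (by positivity)
  have h5 : (1 + Real.log X) * (c * D.card) ≤
      (1 + Real.log X) * ∑ k ∈ Icc 1 X, (1 / (k : ℝ)) * N k :=
    mul_le_mul_of_nonneg_left h1 (by positivity)
  linarith

end Q186.AGP
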