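import Mathlib
import Pool.Agent.Q254.AGP.Stm

/-!
Job ZS of project AGP (helper254).
-/

set_option autoImplicit false

open Finset
open scoped Classical

namespace Q186.AGP

open Pool.Agent.Q254.AGP

/-- the values of the characters are `m`-th roots of unity -/
theorem char_mem {L m : ℕ} (hm : 0 < m)
    (hexp : ∀ a : ℕ, a.Coprime L → a ^ m ≡ 1 [MOD L]) (χ : DirichletCharacter ℂ L)
    {p : ℕ} (hp : p.Coprime L) : χ (p : ZMod L) ∈ (Polynomial.nthRoots m (1 : ℂ)).toFinset := by
  rw [Multiset.mem_toFinset, Polynomial.mem_nthRoots hm, ← map_pow]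
  have h := (ZMod.natCast_eq_natCast_iff (p ^ m) 1 L).2 (hexp p hp)
  push_cast at h
  rw [h, map_one]

theorem greedy {L m : ℕ} [NeZero L] (hm : 0 < m)
    (hexp : ∀ a : ℕ, a.Coprime L → a ^ m ≡ 1 [MOD L]) (P : Finset ℕ)
    (hP : ∀ p ∈ P, p.Coprime L) :
    ∃ a : ℕ → ℂ, (∀ p ∈ P, a p ≠ 0) ∧
      (((univ : Finset (DirichletCharacter ℂ L)).filter
        (fun χ => ∀ p ∈ P, χ (p : ZMod L) ≠ a p)).card : ℝ) ≤
      (L : ℝ) * (1 - 1 / (m : ℝ)) ^ P.card := by
  have hm' : (0 : ℝ) < m := by exact_mod_cast hm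
  induction P using Finset.induction_on with
  | empty =>
    refine ⟨fun _ => 1, by simp, ?_⟩
    have h := DirichletCharacter.sum_characters_eq ℂ (1 : ZMod L)
    simp only [map_one, sum_const, nsmul_eq_mul, mul_one, if_true] at h
    have h' : (univ : Finset (DirichletCharacter ℂ L)).card = L.totient := by exact_mod_cast h
    have h2 : ((univ : Finset (DirichletCharacter ℂ L)).card : ℝ) ≤ L := by
      rw [h']; exact_mod_cast Nat.totient_le L
    simpa using h2
  | insert p P hpP ih =>
    obtain ⟨a, ha, hc⟩ := ih (fun q hq => hP q (mem_insert_of_mem hq))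
    have hp : p.Coprime L := hP p (mem_insert_self _ _)
    obtain ⟨X, hX⟩ : ∃ X : Finset (DirichletCharacter ℂ L), X = (univ : Finset (DirichletCharacter ℂ L)).filter
        (fun χ => ∀ p ∈ P, χ (p : ZMod L) ≠ a p) := ⟨_, rfl⟩
    rw [← hX] at hc
    have ht : (Polynomial.nthRoots m (1 : ℂ)).toFinset.card ≤ m :=
      (Multiset.toFinset_card_le _).trans (Polynomial.card_nthRoots m 1)
    have hne : (Polynomial.nthRoots m (1 : ℂ)).toFinset.Nonempty :=
      ⟨1, by rw [Multiset.mem_toFinset, Polynomial.mem_nthRoots hm, one_pow]⟩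
    have hb : (Polynomial.nthRoots m (1 : ℂ)).toFinset.card • ((X.card : ℝ) / m) ≤ X.card := by
      rw [nsmul_eq_mul]
      have h1 : ((Polynomial.nthRoots m (1 : ℂ)).toFinset.card : ℝ) ≤ m := by exact_mod_cast ht
      calc ((Polynomial.nthRoots m (1 : ℂ)).toFinset.card : ℝ) * ((X.card : ℝ) / m)
          ≤ m * ((X.card : ℝ) / m) := mul_le_mul_of_nonneg_right h1 (by positivity)
        _ = X.card := by field_simp
    obtain ⟨y, hy, hf⟩ := exists_le_card_fiber_of_nsmul_le_card_of_maps_to
      (s := X) (f := fun χ : DirichletCharacter ℂ L => χ (p : ZMod L))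
      (fun χ _ => char_mem hm hexp χ hp) hne hb
    have hy0 : y ≠ 0 := by
      rw [Multiset.mem_toFinset, Polynomial.mem_nthRoots hm] at hy
      rintro rfl
      rw [zero_pow hm.ne'] at hy
      exact zero_ne_one hy
    refine ⟨Function.update a p y, ?_, ?_⟩
    · intro q hq
      rcases eq_or_ne q p with rfl | hqp
      · rw [Function.update_self]; exact hy0
      · rw [Function.update_of_ne hqp]
        exact ha q ((mem_insert.1 hq).resolve_left hqp)
    · have hsub : (univ : Finset (DirichletCharacter ℂ L)).filter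
          (fun χ => ∀ q ∈ insert p P, χ (q : ZMod L) ≠ Function.update a p y q) ⊆
          X \ (X.filter (fun χ : DirichletCharacter ℂ L => χ (p : ZMod L) = y)) := by
        intro χ hχ
        simp only [mem_filter, mem_univ, true_and] at hχ
        have h1 := hχ p (mem_insert_self _ _)
        rw [Function.update_self] at h1
        simp only [mem_sdiff, mem_filter, not_and]
        refine ⟨?_, fun _ => h1⟩
        rw [hX]
        simp only [mem_filter, mem_univ, true_and]
        intro q hq
        have h2 := hχ q (mem_insert_of_mem hq)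
        rwa [Function.update_of_ne (fun h : q = p => hpP (h ▸ hq))] at h2
      have hcard := card_le_card hsub
      rw [card_sdiff_of_subset (filter_subset _ _)] at hcard
      have hle : (X.filter (fun χ : DirichletCharacter ℂ L => χ (p : ZMod L) = y)).card ≤ X.card :=
        card_le_card (filter_subset _ _)
      have hcard' : (((univ : Finset (DirichletCharacter ℂ L)).filter
          (fun χ => ∀ q ∈ insert p P, χ (q : ZMod L) ≠ Function.update a p y q)).card : ℝ) ≤
          X.card - (X.filter (fun χ : DirichletCharacter ℂ L => χ (p : ZMod L) = y)).card := by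
        rw [← Nat.cast_sub hle]; exact_mod_cast hcard
      refine hcard'.trans ?_
      have h3 : (X.card : ℝ) - (X.filter (fun χ : DirichletCharacter ℂ L =>
          χ (p : ZMod L) = y)).card ≤ X.card * (1 - 1 / (m : ℝ)) := by
        have : (X.card : ℝ) * (1 - 1 / (m : ℝ)) = X.card - X.card / m := by ring
        rw [this]; linarith
      refine h3.trans ?_
      rw [card_insert_of_notMem hpP, pow_succ, ← mul_assoc]
      apply mul_le_mul_of_nonneg_right hc
      rw [sub_nonneg, div_le_one hm']
      exact_mod_cast hm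

theorem zs : S_ZS := by
  intro L m hL hm hexp P hP hcard
  by_contra hcon
  push Not at hcon
  have : NeZero L := ⟨by omega⟩
  have hm' : (0 : ℝ) < m := by exact_mod_cast hm
  have hL' : (0 : ℝ) < L := by exact_mod_cast (by omega : 0 < L)
  obtain ⟨a, ha, hc⟩ := greedy hm hexp P hP
  -- no character avoids all the values
  have hlt : (L : ℝ) * (1 - 1 / (m : ℝ)) ^ P.card < 1 := by
    have h1 : (1 - 1 / (m : ℝ)) ≤ Real.exp (-(1 / (m : ℝ))) := by
      have := Real.add_one_le_exp (-(1 / (m : ℝ)))
      linarith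
    have h0 : 0 ≤ 1 - 1 / (m : ℝ) := by
      rw [sub_nonneg, div_le_one hm']
      exact_mod_cast hm
    calc (L : ℝ) * (1 - 1 / (m : ℝ)) ^ P.card
        ≤ L * (Real.exp (-(1 / (m : ℝ)))) ^ P.card :=
          mul_le_mul_of_nonneg_left (pow_le_pow_left₀ h0 h1 _) hL'.le
      _ = L * Real.exp (-(P.card / (m : ℝ))) := by
          rw [← Real.exp_nat_mul]; congr 2; ring
      _ < L * Real.exp (-Real.log L) := by
          apply mul_lt_mul_of_pos_left _ hL'
          apply Real.exp_lt_exp.2
          rw [neg_lt_neg_iff, lt_div_iff₀ hm']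
          linarith
      _ = 1 := by
          rw [Real.exp_neg, Real.exp_log hL']
          field_simp
  have hzero : ((univ : Finset (DirichletCharacter ℂ L)).filter
        (fun χ => ∀ p ∈ P, χ (p : ZMod L) ≠ a p)) = ∅ := by
    rw [← card_eq_zero]
    have : (((univ : Finset (DirichletCharacter ℂ L)).filter
        (fun χ => ∀ p ∈ P, χ (p : ZMod L) ≠ a p)).card : ℝ) < 1 := hc.trans_lt hlt
    have : ((univ : Finset (DirichletCharacter ℂ L)).filter
        (fun χ => ∀ p ∈ P, χ (p : ZMod L) ≠ a p)).card < 1 := by exact_mod_cast this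
    omega
  have hprod : ∀ χ : DirichletCharacter ℂ L, ∏ p ∈ P, (a p + -χ (p : ZMod L)) = 0 := by
    intro χ
    have h1 : χ ∉ ((univ : Finset (DirichletCharacter ℂ L)).filter
        (fun χ => ∀ p ∈ P, χ (p : ZMod L) ≠ a p)) := by rw [hzero]; exact notMem_empty _
    simp only [mem_filter, mem_univ, true_and] at h1
    push Not at h1
    obtain ⟨p, hp, h⟩ := h1
    apply prod_eq_zero hp
    rw [h]; ring
  have hsum : ∑ χ : DirichletCharacter ℂ L, ∏ p ∈ P, (a p + -χ (p : ZMod L)) = 0 :=
    sum_eq_zero (fun χ _ => hprod χ)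
  simp only [prod_add] at hsum
  rw [sum_comm] at hsum
  have hterm : ∀ t ∈ P.powerset, ∑ χ : DirichletCharacter ℂ L,
      (∏ i ∈ t, a i) * ∏ i ∈ P \ t, -χ (i : ZMod L) =
      if t = P then (∏ i ∈ P, a i) * (L.totient : ℂ) else 0 := by
    intro t ht
    have e1 : ∀ χ : DirichletCharacter ℂ L, (∏ i ∈ t, a i) * ∏ i ∈ P \ t, -χ (i : ZMod L) =
        ((∏ i ∈ t, a i) * (-1) ^ (P \ t).card) * χ ((∏ i ∈ P \ t, i : ℕ) : ZMod L) := by
      intro χ
      rw [prod_neg, Nat.cast_prod, map_prod]
      ring
    simp only [e1]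
    rw [← mul_sum, DirichletCharacter.sum_characters_eq ℂ]
    split_ifs with h1 h2 h2
    · rw [h2]; simp
    · exfalso
      have h3 : (P \ t).Nonempty := by
        rw [sdiff_nonempty]
        intro h4
        exact h2 (subset_antisymm (mem_powerset.1 ht) h4)
      apply hcon (P \ t) sdiff_subset h3
      rw [← ZMod.natCast_eq_natCast_iff, h1, Nat.cast_one]
    · exfalso
      apply h1
      rw [h2]
      simp
    · ring
  rw [sum_congr rfl hterm, sum_ite_eq' _ P, if_pos (mem_powerset_self P)] at hsum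
  have h5 : (∏ i ∈ P, a i) ≠ 0 := prod_ne_zero_iff.2 ha
  have h6 : (L.totient : ℂ) ≠ 0 := by
    exact_mod_cast (Nat.totient_pos.2 (by omega)).ne'
  exact mul_ne_zero h5 h6 hsum

end Q186.AGP
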